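import Pool.Agent.U94.MV3.VGB

/-!
Project MV3, package VG, part D: integration by parts against `gg`.
-/

set_option autoImplicit false

namespace Pool.Agent.U94.MV3.VG

open MeasureTheory Filter Topology Set Complex Pool.Agent.U398.MV

noncomputable section

/-- half the square of the positive part -/
def psi (x : ℝ) : ℝ := 1 / 2 * (max 0 x) ^ 2

theorem psi_deriv (x : ℝ) : HasDerivAt psi (max 0 x) x := by
  rcases lt_trichotomy x 0 with hx | hx | hx
  · rw [max_eq_left hx.le]
    have h1 : psi =ᶠ[𝓝 x] fun _ => 0 := by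
      filter_upwards [Iio_mem_nhds hx] with y hy
      unfold psi
      rw [max_eq_left (le_of_lt hy)]
      ring
    exact (hasDerivAt_const x (0 : ℝ)).congr_of_eventuallyEq h1
  · subst hx
    rw [max_self, hasDerivAt_iff_isLittleO]
    have h1 : (fun y => psi y - psi 0 - (y - 0) • (0 : ℝ)) =O[𝓝 0] fun y : ℝ => y ^ 2 := by
      refine Asymptotics.IsBigO.of_bound 1 (Eventually.of_forall fun y => ?_)
      have h2 : psi 0 = 0 := by unfold psi; simp
      rw [h2, smul_zero, sub_zero, sub_zero, one_mul]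
      unfold psi
      rw [Real.norm_of_nonneg (by positivity), Real.norm_of_nonneg (by positivity)]
      rcases le_total 0 y with h | h
      · rw [max_eq_right h]; nlinarith [sq_nonneg y]
      · rw [max_eq_left h]; nlinarith [sq_nonneg y]
    have h3 := h1.trans_isLittleO (Asymptotics.isLittleO_pow_id (𝕜 := ℝ) one_lt_two)
    simpa using h3
  · rw [max_eq_right hx.le]
    have h1 : psi =ᶠ[𝓝 x] fun y => 1 / 2 * y ^ 2 := by
      filter_upwards [Ioi_mem_nhds hx] with y hy
      unfold psi
      rw [max_eq_right (le_of_lt hy)]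
    have h2 := (hasDerivAt_pow 2 x).const_mul (1 / 2)
    refine (h2.congr_deriv ?_).congr_of_eventuallyEq h1
    norm_num
    ring

/-- the hat function -/
def kk (x : ℝ) : ℝ := max 0 (x + 1) - 2 * max 0 x + max 0 (x - 1)

/-- its primitive -/
def Phi (x : ℝ) : ℝ := psi (x + 1) - 2 * psi x + psi (x - 1)

theorem Phi_deriv (x : ℝ) : HasDerivAt Phi (kk x) x := by
  unfold Phi kk
  have h1 := (psi_deriv (x + 1)).comp_add_const x 1
  have h2 := (psi_deriv x).const_mul 2
  have h3 := (psi_deriv (x - 1)).comp_sub_const x 1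
  exact (h1.fun_sub h2).fun_add h3

theorem kk_cont : Continuous kk := by
  unfold kk
  fun_prop

theorem kk_in {x : ℝ} (h1 : -1 ≤ x) (h2 : x ≤ 1) : kk x = 1 - |x| := by
  unfold kk
  rw [max_eq_right (show 0 ≤ x + 1 by linarith), max_eq_left (show x - 1 ≤ 0 by linarith)]
  rcases le_total 0 x with h | h
  · rw [max_eq_right h, abs_of_nonneg h]; ring
  · rw [max_eq_left h, abs_of_nonpos h]; ring

theorem kk_left {x : ℝ} (h : x ≤ -1) : kk x = 0 := by
  unfold kk
  rw [max_eq_left (show x + 1 ≤ 0 by linarith), max_eq_left (show x - 1 ≤ 0 by linarith),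
    max_eq_left (show x ≤ 0 by linarith)]
  ring

theorem kk_right {x : ℝ} (h : 1 ≤ x) : kk x = 0 := by
  unfold kk
  rw [max_eq_right (show 0 ≤ x + 1 by linarith), max_eq_right (show 0 ≤ x - 1 by linarith),
    max_eq_right (show 0 ≤ x by linarith)]
  ring

theorem kk_nonneg (x : ℝ) : 0 ≤ kk x := by
  rcases le_total x (-1) with h | h
  · rw [kk_left h]
  rcases le_total 1 x with h2 | h2
  · rw [kk_right h2]
  · rw [kk_in h h2]
    have : |x| ≤ 1 := abs_le.2 ⟨h, h2⟩
    linarith

theorem Phi_left {x : ℝ} (h : x ≤ -1) : Phi x = 0 := by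
  unfold Phi psi
  rw [max_eq_left (show x + 1 ≤ 0 by linarith), max_eq_left (show x - 1 ≤ 0 by linarith),
    max_eq_left (show x ≤ 0 by linarith)]
  ring

theorem Phi_right {x : ℝ} (h : 1 ≤ x) : Phi x = 1 := by
  unfold Phi psi
  rw [max_eq_right (show 0 ≤ x + 1 by linarith), max_eq_right (show 0 ≤ x - 1 by linarith),
    max_eq_right (show 0 ≤ x by linarith)]
  ring

theorem Phi_neg {x : ℝ} (h : x ≤ 0) : Phi x = 1 / 2 * (max 0 (1 + x)) ^ 2 := by
  unfold Phi psi
  rw [max_eq_left (show x - 1 ≤ 0 by linarith), max_eq_left h, add_comm x 1]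
  ring

theorem Phi_pos {x : ℝ} (h : 0 ≤ x) : Phi x = 1 - 1 / 2 * (max 0 (1 - x)) ^ 2 := by
  rcases le_total x 1 with h1 | h1
  · unfold Phi psi
    rw [max_eq_right (show 0 ≤ x + 1 by linarith), max_eq_left (show x - 1 ≤ 0 by linarith),
      max_eq_right h, max_eq_right (show 0 ≤ 1 - x by linarith)]
    ring
  · rw [Phi_right h1, max_eq_left (show 1 - x ≤ 0 by linarith)]
    ring

theorem Phi_nonneg (x : ℝ) : 0 ≤ Phi x := by
  rcases le_total x 0 with h | h
  · rw [Phi_neg h]; positivity
  · rw [Phi_pos h]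
    have h1 : max 0 (1 - x) ≤ 1 := max_le (by norm_num) (by linarith)
    have h2 : 0 ≤ max 0 (1 - x) := le_max_left _ _
    nlinarith

theorem Phi_le (x : ℝ) : Phi x ≤ 1 := by
  rcases le_total x 0 with h | h
  · rw [Phi_neg h]
    have h1 : max 0 (1 + x) ≤ 1 := max_le (by norm_num) (by linarith)
    have h2 : 0 ≤ max 0 (1 + x) := le_max_left _ _
    nlinarith
  · rw [Phi_pos h]
    have : 0 ≤ 1 / 2 * (max 0 (1 - x)) ^ 2 := by positivity
    linarith

theorem gg_eq (x : ℝ) : gg x = (if 0 ≤ x then 1 else 0) - Phi x := by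
  unfold gg
  split_ifs with h
  · rw [Phi_pos h]; ring
  · rw [Phi_neg (le_of_lt (not_le.1 h))]; ring

theorem ind_part {f : ℝ → ℝ} {F : ℝ → ℝ} (hF : ∀ y, HasDerivAt F (f y) y) (hf : Continuous f)
    {a b : ℝ} (hab : a ≤ b) (t : ℝ) :
    ∫ y in a..b, ({y : ℝ | y ≤ t}).indicator f y = F (max a (min t b)) - F a := by
  have ftc : ∀ c d : ℝ, ∫ y in c..d, f y = F d - F c := fun c d =>
    intervalIntegral.integral_eq_sub_of_hasDerivAt (fun x _ => hF x)
      (hf.intervalIntegrable _ _)
  rcases lt_or_ge t a with h | h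
  · rw [max_eq_left ((min_le_left _ _).trans h.le), sub_self]
    rw [intervalIntegral.integral_of_le hab]
    rw [setIntegral_congr_fun (g := fun _ => (0 : ℝ)) measurableSet_Ioc]
    · simp
    · intro y hy
      refine indicator_of_notMem ?_ _
      exact not_le.2 (h.trans hy.1)
  rcases le_or_gt t b with h2 | h2
  · rw [min_eq_left h2, max_eq_right h, intervalIntegral.integral_indicator ⟨h, h2⟩, ftc]
  · rw [min_eq_right h2.le, max_eq_right hab, ← ftc]
    rw [intervalIntegral.integral_of_le hab, intervalIntegral.integral_of_le hab]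
    refine setIntegral_congr_fun measurableSet_Ioc ?_
    intro y hy
    refine indicator_of_mem ?_ _
    exact hy.2.trans h2.le

theorem ibp {G : ℝ → ℝ} (hG : ∀ y, HasDerivAt G (deriv G y) y)
    (hc : Continuous (deriv G)) {a b : ℝ} (hab : a ≤ b) (t : ℝ) :
    ∫ y in a..b, deriv G y * gg (t - y) = (G (max a (min t b)) - G a) -
      (Phi (t - b) * G b - Phi (t - a) * G a + ∫ y in a..b, kk (t - y) * G y) := by
  have hPc : Continuous Phi := by
    unfold Phi psi
    fun_prop
  have h1 : ∀ y, deriv G y * gg (t - y) =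
      ({y : ℝ | y ≤ t}).indicator (deriv G) y - Phi (t - y) * deriv G y := by
    intro y
    rw [gg_eq]
    by_cases hy : y ≤ t
    · rw [if_pos (by linarith), indicator_of_mem (show y ∈ {y : ℝ | y ≤ t} from hy)]
      ring
    · rw [if_neg (by push Not; push Not at hy; linarith),
        indicator_of_notMem (show y ∉ {y : ℝ | y ≤ t} from hy)]
      ring
  simp_rw [h1]
  have i1 : IntervalIntegrable (({y : ℝ | y ≤ t}).indicator (deriv G)) volume a b := by
    rw [intervalIntegrable_iff]
    have := (hc.intervalIntegrable (μ := volume) a b)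
    rw [intervalIntegrable_iff] at this
    exact this.indicator measurableSet_Iic
  have i2 : IntervalIntegrable (fun y => Phi (t - y) * deriv G y) volume a b :=
    (by fun_prop : Continuous fun y => Phi (t - y) * deriv G y).intervalIntegrable _ _
  rw [intervalIntegral.integral_sub i1 i2, ind_part hG hc hab]
  congr 1
  have h2 : ∀ y, HasDerivAt (fun y => Phi (t - y)) (-kk (t - y)) y := by
    intro y
    have := (Phi_deriv (t - y)).comp_const_sub t y
    exact this
  have hk := kk_cont
  rw [intervalIntegral.integral_mul_deriv_eq_deriv_mul (u := fun y => Phi (t - y))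
    (u' := fun y => -kk (t - y)) (v := G) (fun x _ => h2 x) (fun x _ => hG x)
    ((by fun_prop : Continuous fun y => -kk (t - y)).intervalIntegrable _ _)
    (hc.intervalIntegrable _ _)]
  simp only [neg_mul]
  rw [intervalIntegral.integral_neg, sub_neg_eq_add]

theorem kk_int {a b : ℝ} (t : ℝ) : ∫ y in a..b, kk (t - y) = Phi (t - a) - Phi (t - b) := by
  have h2 : ∀ y, HasDerivAt (fun y => -Phi (t - y)) (kk (t - y)) y := by
    intro y
    have := ((Phi_deriv (t - y)).comp_const_sub t y).fun_neg
    rw [neg_neg] at this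
    exact this
  have hk := kk_cont
  rw [intervalIntegral.integral_eq_sub_of_hasDerivAt (fun x _ => h2 x)
    ((by fun_prop : Continuous fun y => kk (t - y)).intervalIntegrable _ _)]
  ring

theorem ibp_bound {G : ℝ → ℝ} (hG : ∀ y, HasDerivAt G (deriv G y) y) (hGc : Continuous G)
    (hc : Continuous (deriv G)) {a b : ℝ} (hab : a ≤ b) {M : ℝ} (hM : ∀ y, |G y| ≤ M) (t : ℝ) :
    |∫ y in a..b, deriv G y * gg (t - y)| ≤ 5 * M := by
  rw [ibp hG hc hab t]
  have hM0 : 0 ≤ M := (abs_nonneg _).trans (hM 0)
  have hk := kk_cont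
  have h1 : |∫ y in a..b, kk (t - y) * G y| ≤ M := by
    have h2 : |∫ y in a..b, kk (t - y) * G y| ≤ ∫ y in a..b, kk (t - y) * M := by
      refine (intervalIntegral.abs_integral_le_integral_abs hab).trans ?_
      refine intervalIntegral.integral_mono_on hab
        ((by fun_prop : Continuous fun y => |kk (t - y) * G y|).intervalIntegrable _ _)
        ((by fun_prop : Continuous fun y => kk (t - y) * M).intervalIntegrable _ _) ?_
      intro y _
      rw [abs_mul, abs_of_nonneg (kk_nonneg _)]
      exact mul_le_mul_of_nonneg_left (hM y) (kk_nonneg _)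
    refine h2.trans ?_
    rw [intervalIntegral.integral_mul_const, kk_int]
    have := Phi_le (t - a)
    have := Phi_nonneg (t - b)
    nlinarith
  have h3 : |Phi (t - b) * G b| ≤ M := by
    rw [abs_mul, abs_of_nonneg (Phi_nonneg _)]
    calc Phi (t - b) * |G b| ≤ 1 * M := mul_le_mul (Phi_le _) (hM _) (abs_nonneg _) zero_le_one
      _ = M := one_mul _
  have h4 : |Phi (t - a) * G a| ≤ M := by
    rw [abs_mul, abs_of_nonneg (Phi_nonneg _)]
    calc Phi (t - a) * |G a| ≤ 1 * M := mul_le_mul (Phi_le _) (hM _) (abs_nonneg _) zero_le_one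
      _ = M := one_mul _
  have h5 := hM (max a (min t b))
  have h6 := hM a
  rw [abs_le] at *
  constructor <;> linarith [h1.1, h1.2, h3.1, h3.2, h4.1, h4.2, h5.1, h5.2, h6.1, h6.2]

theorem ibp_in {G : ℝ → ℝ} (hG : ∀ y, HasDerivAt G (deriv G y) y) (hGc : Continuous G)
    (hc : Continuous (deriv G)) {a b t : ℝ} (h1 : a + 1 ≤ t) (h2 : t ≤ b - 1) :
    ∫ y in a..b, deriv G y * gg (t - y) = G t - ∫ y in (-1 : ℝ)..1, (1 - |y|) * G (t - y) := by
  rw [ibp hG hc (by linarith) t, min_eq_left (by linarith), max_eq_right (by linarith),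
    Phi_left (show t - b ≤ -1 by linarith), Phi_right (show 1 ≤ t - a by linarith)]
  have hk := kk_cont
  have hi : ∀ c d : ℝ, IntervalIntegrable (fun y => kk (t - y) * G y) volume c d := fun c d =>
    (by fun_prop : Continuous fun y => kk (t - y) * G y).intervalIntegrable _ _
  have h3 : ∫ y in a..b, kk (t - y) * G y = ∫ y in (-1 : ℝ)..1, (1 - |y|) * G (t - y) := by
    rw [← intervalIntegral.integral_add_adjacent_intervals (hi a (t - 1)) (hi (t - 1) b),
      ← intervalIntegral.integral_add_adjacent_intervals (hi (t - 1) (t + 1)) (hi (t + 1) b)]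
    have e1 : ∫ y in a..(t - 1), kk (t - y) * G y = 0 := by
      rw [intervalIntegral.integral_congr (g := fun _ => (0 : ℝ))]
      · simp
      · intro y hy
        rw [uIcc_of_le (by linarith)] at hy
        simp only
        rw [kk_right (by linarith [hy.2]), zero_mul]
    have e2 : ∫ y in (t + 1)..b, kk (t - y) * G y = 0 := by
      rw [intervalIntegral.integral_congr (g := fun _ => (0 : ℝ))]
      · simp
      · intro y hy
        rw [uIcc_of_le (by linarith)] at hy
        simp only
        rw [kk_left (by linarith [hy.1]), zero_mul]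
    rw [e1, e2, zero_add, add_zero]
    have e3 := intervalIntegral.integral_comp_sub_left (a := -1) (b := 1)
      (fun y => kk (t - y) * G y) t
    rw [sub_neg_eq_add] at e3
    rw [← e3]
    refine intervalIntegral.integral_congr fun y hy => ?_
    rw [uIcc_of_le (by norm_num)] at hy
    rw [sub_sub_cancel, kk_in hy.1 hy.2]
  rw [h3]
  ring

theorem gg_zero {x : ℝ} (h : 1 ≤ |x|) : gg x = 0 := by
  unfold gg
  split_ifs with h0
  · rw [abs_of_nonneg h0] at h
    rw [max_eq_left (by linarith)]
    ring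
  · rw [abs_of_neg (not_le.1 h0)] at h
    rw [max_eq_left (by linarith)]
    ring

theorem ibp_zero (G : ℝ → ℝ) {a b t : ℝ} (hab : a ≤ b)
    (h : t < a - 1 ∨ b + 1 < t) : ∫ y in a..b, deriv G y * gg (t - y) = 0 := by
  rw [intervalIntegral.integral_congr (g := fun _ => (0 : ℝ))]
  · simp
  · intro y hy
    rw [uIcc_of_le hab] at hy
    simp only
    rw [gg_zero, mul_zero]
    rcases h with h | h
    · rw [abs_of_nonpos (by linarith [hy.1])]; linarith [hy.1]
    · rw [abs_of_nonneg (by linarith [hy.2])]; linarith [hy.2]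

end

end Pool.Agent.U94.MV3.VG
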