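import Pool.Agent.U94.MV3.VGC
import Pool.Agent.U94.MV3.VGD

/-!
Project MV3, package VG: bounds for trigonometric polynomials with separated frequencies.
-/

set_option autoImplicit false

namespace Pool.Agent.U94.MV3.VG

open MeasureTheory Filter Topology Set Complex Pool.Agent.U398.MV

noncomputable section

/-- the transform of the unit window -/
def sn (l : ℝ) : ℂ := ∫ y in (-(1 / 2) : ℝ)..(1 / 2), cexp (-(I * y * (l : ℂ)))

theorem sn_le (l : ℝ) : ‖sn l‖ ≤ 1 := by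
  unfold sn
  have h := intervalIntegral.norm_integral_le_of_norm_le_const (a := -(1 / 2 : ℝ)) (b := 1 / 2)
    (C := 1) (f := fun y : ℝ => cexp (-(I * y * (l : ℂ)))) (fun y _ => (norm_e y l).le)
  refine h.trans (le_of_eq ?_)
  norm_num

theorem sn_le2 {l : ℝ} (hl : l ≠ 0) : ‖sn l‖ ≤ 2 / |l| := by
  unfold sn
  have h1 : (-(I * (l : ℂ))) ≠ 0 := by
    rw [neg_ne_zero]
    exact mul_ne_zero I_ne_zero (by exact_mod_cast hl)
  have h2 : ∀ y : ℝ, cexp (-(I * y * (l : ℂ))) = cexp ((-(I * (l : ℂ))) * y) := by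
    intro y
    congr 1
    ring
  simp_rw [h2]
  rw [integral_exp_mul_complex h1, norm_div]
  have h3 : ‖(-(I * (l : ℂ)))‖ = |l| := by
    rw [norm_neg, norm_mul, Complex.norm_I, one_mul, Complex.norm_real, Real.norm_eq_abs]
  rw [h3]
  refine div_le_div_of_nonneg_right ?_ (abs_nonneg _)
  refine (norm_sub_le _ _).trans ?_
  rw [← h2, ← h2, norm_e, norm_e]
  norm_num

theorem sn_sq (l : ℝ) : ‖sn l‖ ^ 2 ≤ 5 / (1 + l ^ 2) := by
  have hp : (0 : ℝ) < 1 + l ^ 2 := by positivity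
  have h1 := sn_le l
  have h0 := norm_nonneg (sn l)
  rcases le_total (l ^ 2) 4 with h | h
  · have : ‖sn l‖ ^ 2 ≤ 1 := by nlinarith
    refine this.trans ?_
    rw [le_div_iff₀ hp]
    linarith
  · have hl : l ≠ 0 := by
      intro h2
      rw [h2] at h
      norm_num at h
    have h3 := pow_le_pow_left₀ h0 (sn_le2 hl) 2
    refine h3.trans ?_
    rw [div_pow, sq_abs, div_le_div_iff₀ (by positivity) hp]
    linarith

section
variable {ι : Type} {T K : ℝ} {Λ : Finset ι} {lam : ι → ℝ} {g : ι → ℂ} {G : ℝ → ℝ}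

theorem av_eq (h : Trig T K Λ lam g G) (t : ℝ) :
    ((∫ y in (t - 1 / 2)..(t + 1 / 2), G y : ℝ) : ℂ) =
      ES Λ lam (fun i => g i * sn (lam i)) t := by
  rw [← intervalIntegral.integral_ofReal]
  simp_rw [G_eq h]
  unfold ES
  rw [intervalIntegral.integral_finsetSum]
  · refine Finset.sum_congr rfl fun i _ => ?_
    rw [intervalIntegral.integral_const_mul, mul_assoc]
    congr 1
    have h1 := intervalIntegral.integral_comp_add_right (a := -(1 / 2)) (b := 1 / 2)
      (fun y : ℝ => cexp (-(I * y * (lam i : ℂ)))) t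
    have e1 : -(1 / 2) + t = t - 1 / 2 := by ring
    have e2 : 1 / 2 + t = t + 1 / 2 := by ring
    rw [e1, e2] at h1
    rw [← h1]
    unfold sn
    rw [← intervalIntegral.integral_mul_const]
    refine intervalIntegral.integral_congr fun y _ => ?_
    rw [← Complex.exp_add]
    congr 1
    push_cast
    ring
  · intro i _
    exact (by fun_prop : Continuous fun y : ℝ =>
      g i * cexp (-(I * y * (lam i : ℂ)))).intervalIntegrable _ _

theorem av_sq (h : Trig T K Λ lam g G) (hT : 1 ≤ T) :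
    (∫ t in T..(2 * T), (∫ y in (t - 1 / 2)..(t + 1 / 2), G y) ^ 2) ≤
      T * (15 / 2 * K ^ 2 * SS) + 2 / T ^ (-(1 / 8) : ℝ) * (T ^ (1 / 8 : ℝ)) ^ 2 := by
  have h1 : ∀ t : ℝ, (∫ y in (t - 1 / 2)..(t + 1 / 2), G y) ^ 2 =
      ‖ES Λ lam (fun i => g i * sn (lam i)) t‖ ^ 2 := by
    intro t
    rw [← av_eq h t, Complex.norm_real, Real.norm_eq_abs, sq_abs]
  simp_rw [h1]
  have hx : 0 < T ^ (-(1 / 8) : ℝ) := Real.rpow_pos_of_pos (by linarith) _
  refine (ES_mean Λ lam _ hx h.sep (by linarith)).trans ?_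
  have h2 : ∑ i ∈ Λ, ‖g i * sn (lam i)‖ ^ 2 ≤ 15 / 2 * K ^ 2 * SS := by
    have h3 := windows h 0 (15 / 2) (by norm_num) (fun i => ‖sn (lam i)‖ ^ 2)
      (fun i _ m hm => (sn_sq _).trans (wtS (lam i) m hm))
    refine le_trans (le_of_eq ?_) h3
    refine Finset.sum_congr rfl fun i _ => ?_
    rw [norm_mul, mul_pow]
    ring
  have h4 : (∑ i ∈ Λ, ‖g i * sn (lam i)‖) ^ 2 ≤ (T ^ (1 / 8 : ℝ)) ^ 2 := by
    refine pow_le_pow_left₀ (Finset.sum_nonneg fun i _ => norm_nonneg _) ?_ 2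
    refine le_trans (Finset.sum_le_sum fun i _ => ?_) h.mass
    rw [norm_mul]
    exact mul_le_of_le_one_right (norm_nonneg _) (sn_le _)
  have e : 2 * T - T = T := by ring
  rw [e]
  exact add_le_add (mul_le_mul_of_nonneg_left h2 (by linarith))
    (mul_le_mul_of_nonneg_left h4 (by positivity))

end

theorem t_VG : S_VG := by
  have hS := SS_nonneg
  have hpi := Real.pi_gt_three
  refine ⟨600 * Real.pi * (SS + 1), Real.exp 22, by positivity, ?_, ?_⟩
  · have := Real.quadratic_le_exp_of_nonneg (show (0 : ℝ) ≤ 22 by norm_num)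
    linarith
  intro T hT0 ι K Λ lam g G h a b ha1 ha2 hb1 hb2
  have hTpos : 0 < T := (Real.exp_pos _).trans_le hT0
  obtain ⟨L, hLdef⟩ : ∃ L, L = Real.log T := ⟨_, rfl⟩
  have hL : 22 ≤ L := by
    rw [hLdef]
    exact (Real.le_log_iff_exp_le hTpos).2 hT0
  have hTL : T = Real.exp L := by rw [hLdef, Real.exp_log hTpos]
  have hT2L : 2 * L ≤ T := by
    have := Real.quadratic_le_exp_of_nonneg (show (0 : ℝ) ≤ L by linarith)
    rw [hTL]
    nlinarith
  have hT1 : 1 ≤ T := by linarith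
  obtain ⟨x, hxdef⟩ : ∃ x, x = T ^ (1 / 8 : ℝ) := ⟨_, rfl⟩
  have hxe : x = Real.exp (L / 8) := by
    rw [hxdef, hTL, ← Real.exp_mul]
    congr 1
    ring
  have hx1 : 1 ≤ x := by
    rw [hxe]
    exact Real.one_le_exp (by linarith)
  have hx8 : T = x ^ 8 := by
    rw [hxe, ← Real.exp_nat_mul, hTL]
    congr 1
    push_cast
    ring
  have hx4 : T ^ (1 / 2 : ℝ) = x ^ 4 := by
    rw [hxe, ← Real.exp_nat_mul, hTL, ← Real.exp_mul]
    congr 1
    push_cast
    ring
  have hxi : (2 : ℝ) / T ^ (-(1 / 8) : ℝ) = 2 * x := by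
    rw [Real.rpow_neg hTpos.le, ← hxdef, div_inv_eq_mul]
  have hK : 1 ≤ K ^ 2 := by
    have := h.hK
    nlinarith
  have hab : a ≤ b := by linarith
  have hLx : L / 8 ≤ x := by
    have := Real.add_one_le_exp (L / 8)
    rw [hxe]
    linarith
  have hM2 : (L / 8 * x) ^ 2 ≤ x ^ 4 := by
    have h1 : L / 8 * x ≤ x * x := mul_le_mul_of_nonneg_right hLx (by linarith)
    have h2 := pow_le_pow_left₀ (by positivity) h1 2
    refine h2.trans (le_of_eq ?_)
    ring
  have hE : x ^ 12 * Real.exp (-(3 / 2) * L) = 1 := by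
    rw [hxe, ← Real.exp_nat_mul, ← Real.exp_add]
    rw [Real.exp_eq_one_iff]
    push_cast
    ring
  have hE0 := Real.exp_pos (-(3 / 2) * L)
  have hE1 : Real.exp (-(3 / 2) * L) ≤ 1 := Real.exp_le_one_iff.2 (by linarith)
  have hDE : Real.exp (-(L - 1) ^ 2 / 2) ≤ Real.exp (-(3 / 2) * L) := by
    apply Real.exp_le_exp.2
    nlinarith
  have hGd : ∀ y, HasDerivAt G (deriv G y) y := fun y => by
    rw [(G_hasDeriv h y).deriv]
    exact G_hasDeriv h y
  have pw : ∀ n m : ℕ, n ≤ m → x ^ n ≤ x ^ m := fun n m hnm => pow_le_pow_right₀ hx1 hnm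
  have hx0 : 0 < x := by linarith
  -- the tail term
  have htail : x ^ 8 * (x ^ 4 * Real.exp (-(L - 1) ^ 2 / 2)) ≤ 1 := by
    calc x ^ 8 * (x ^ 4 * Real.exp (-(L - 1) ^ 2 / 2)) =
          x ^ 12 * Real.exp (-(L - 1) ^ 2 / 2) := by ring
      _ ≤ x ^ 12 * Real.exp (-(3 / 2) * L) := mul_le_mul_of_nonneg_left hDE (by positivity)
      _ = 1 := hE
  have htail2 : x ^ 8 * ((L / 8 * x) ^ 2 * Real.exp (-(L - 1) ^ 2 / 2)) ≤ 1 := by
    refine le_trans ?_ htail
    refine mul_le_mul_of_nonneg_left ?_ (by positivity)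
    exact mul_le_mul_of_nonneg_right hM2 (Real.exp_pos _).le
  have hJ : ∀ u : ℝ, (∫ t in (T + L)..(2 * T - L), ‖Wg (deriv G) a b u t‖ ^ 2) ≤
      2 * ((T - 2 * L) * ∑ i ∈ Λ, ‖cc lam g u i‖ ^ 2 +
        2 * x * (∑ i ∈ Λ, ‖cc lam g u i‖) ^ 2) + 8 * Real.pi := by
    intro u
    have h1 := Wg_J h hT1 hab u (D := L - 1) (by linarith) (A := T + L) (B := 2 * T - L)
      (by linarith) (by linarith) (by linarith)
    rw [hxi, ← hLdef, ← hxdef] at h1
    refine h1.trans ?_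
    have e1 : 2 * T - L - (T + L) = T - 2 * L := by ring
    rw [e1]
    have h2 : 2 * (T - 2 * L) * (4 * Real.pi * (L / 8 * x) ^ 2 * Real.exp (-(L - 1) ^ 2 / 2)) ≤
        8 * Real.pi := by
      calc 2 * (T - 2 * L) * (4 * Real.pi * (L / 8 * x) ^ 2 * Real.exp (-(L - 1) ^ 2 / 2)) ≤
            2 * T * (4 * Real.pi * (L / 8 * x) ^ 2 * Real.exp (-(L - 1) ^ 2 / 2)) := by
            refine mul_le_mul_of_nonneg_right (by linarith) (by positivity)
        _ = 8 * Real.pi * (x ^ 8 * ((L / 8 * x) ^ 2 * Real.exp (-(L - 1) ^ 2 / 2))) := by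
            rw [hx8]; ring
        _ ≤ 8 * Real.pi * 1 := mul_le_mul_of_nonneg_left htail2 (by positivity)
        _ = _ := by ring
    linarith
  refine ⟨G_contDiff h, G_bound h, Wg_cont (dG_cont h) a b, Wg_sq_int h hT1 hab,
    ?_, ?_, ?_, ?_, ?_, ?_, ?_⟩
  · -- (5)
    intro u hu0 _
    rw [← hLdef]
    refine (hJ u).trans ?_
    have h1 := cc_diag h u
    rw [abs_of_nonneg hu0] at h1
    have h2 := cc_sum h hT1 u (E := 1) zero_le_one (fun i _ => Real.exp_le_one_iff.2 (by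
      have : 0 ≤ (u - lam i) ^ 2 := sq_nonneg _
      linarith))
    rw [← hLdef, ← hxdef] at h2
    have h3 : (T - 2 * L) * ∑ i ∈ Λ, ‖cc lam g u i‖ ^ 2 ≤
        T * (9 * Real.pi * (1 + u) * K ^ 2 * SS) := by
      refine mul_le_mul (by linarith) h1 (Finset.sum_nonneg fun i _ => by positivity)
        (by linarith)
    have h4 : 2 * x * (∑ i ∈ Λ, ‖cc lam g u i‖) ^ 2 ≤ 4 * Real.pi * T := by
      calc 2 * x * (∑ i ∈ Λ, ‖cc lam g u i‖) ^ 2 ≤
            2 * x * (2 * Real.pi * 1 ^ 2 * (L / 8 * x) ^ 2) :=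
            mul_le_mul_of_nonneg_left h2 (by positivity)
        _ ≤ 2 * x * (2 * Real.pi * 1 ^ 2 * x ^ 4) := by
            refine mul_le_mul_of_nonneg_left ?_ (by positivity)
            exact mul_le_mul_of_nonneg_left hM2 (by positivity)
        _ = 4 * Real.pi * x ^ 5 := by ring
        _ ≤ 4 * Real.pi * x ^ 8 := mul_le_mul_of_nonneg_left (pw 5 8 (by norm_num)) (by positivity)
        _ = 4 * Real.pi * T := by rw [hx8]
    have h5 : T ≤ K ^ 2 * T * (1 + u) := by
      have h6 : 1 ≤ K ^ 2 * (1 + u) := by nlinarith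
      nlinarith
    have h7 : 1 ≤ K ^ 2 * T * (1 + u) := hT1.trans h5
    have h8 : 0 ≤ Real.pi * SS := by positivity
    have h9 : 0 ≤ Real.pi * SS * (K ^ 2 * T * (1 + u)) := by positivity
    have h10 : Real.pi * T ≤ Real.pi * (K ^ 2 * T * (1 + u)) :=
      mul_le_mul_of_nonneg_left h5 (by positivity)
    have h11 : Real.pi * 1 ≤ Real.pi * (K ^ 2 * T * (1 + u)) :=
      mul_le_mul_of_nonneg_left h7 (by positivity)
    have h12 : 2 * ((T - 2 * L) * ∑ i ∈ Λ, ‖cc lam g u i‖ ^ 2 +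
        2 * x * (∑ i ∈ Λ, ‖cc lam g u i‖) ^ 2) + 8 * Real.pi ≤
        2 * (T * (9 * Real.pi * (1 + u) * K ^ 2 * SS) + 4 * Real.pi * T) + 8 * Real.pi := by
      linarith
    refine h12.trans ?_
    have e1 : T * (9 * Real.pi * (1 + u) * K ^ 2 * SS) =
        9 * (Real.pi * SS * (K ^ 2 * T * (1 + u))) := by ring
    have e2 : 600 * Real.pi * (SS + 1) * K ^ 2 * T * (1 + u) =
        600 * (Real.pi * SS * (K ^ 2 * T * (1 + u))) + 600 * (Real.pi * (K ^ 2 * T * (1 + u))) := by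
      ring
    rw [e1, e2]
    linarith
  · -- (6)
    intro u hu
    rw [← hLdef] at hu ⊢
    refine (hJ u).trans ?_
    have h1 : ∀ i ∈ Λ, Real.exp (-(u - lam i) ^ 2 / 2) ≤ Real.exp (-(3 / 2) * L) := by
      intro i hi
      apply Real.exp_le_exp.2
      have h2 := h.small i hi
      rw [← hLdef] at h2
      have h3 : 3 / 8 * L ≤ u - lam i := by
        have := (abs_le.1 h2).2
        linarith
      have h4 : (3 / 8 * L) ^ 2 ≤ (u - lam i) ^ 2 := pow_le_pow_left₀ (by linarith) h3 2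
      have h5 : 22 * L ≤ L * L := mul_le_mul_of_nonneg_right hL (by linarith)
      have h6 : (3 / 8 * L) ^ 2 = 9 / 64 * (L * L) := by ring
      rw [h6] at h4
      linarith
    have h2 := cc_sum h hT1 u hE0.le h1
    rw [← hLdef, ← hxdef] at h2
    have h3 : (∑ i ∈ Λ, ‖cc lam g u i‖) ^ 2 ≤
        2 * Real.pi * Real.exp (-(3 / 2) * L) ^ 2 * x ^ 4 :=
      h2.trans (mul_le_mul_of_nonneg_left hM2 (by positivity))
    have h4 : ∑ i ∈ Λ, ‖cc lam g u i‖ ^ 2 ≤ (∑ i ∈ Λ, ‖cc lam g u i‖) ^ 2 :=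
      Finset.sum_sq_le_sq_sum_of_nonneg (fun i _ => norm_nonneg _)
    have h5 : (T - 2 * L) * ∑ i ∈ Λ, ‖cc lam g u i‖ ^ 2 ≤
        x ^ 8 * (2 * Real.pi * Real.exp (-(3 / 2) * L) ^ 2 * x ^ 4) := by
      refine mul_le_mul (by rw [← hx8]; linarith) (h4.trans h3)
        (Finset.sum_nonneg fun i _ => by positivity) (by positivity)
    have h6 : 2 * x * (∑ i ∈ Λ, ‖cc lam g u i‖) ^ 2 ≤
        2 * x ^ 8 * (2 * Real.pi * Real.exp (-(3 / 2) * L) ^ 2 * x ^ 4) := by
      refine mul_le_mul ?_ h3 (by positivity) (by positivity)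
      have := pw 1 8 (by norm_num)
      rw [pow_one] at this
      linarith
    have h7 : x ^ 8 * (2 * Real.pi * Real.exp (-(3 / 2) * L) ^ 2 * x ^ 4) ≤ 2 * Real.pi := by
      calc x ^ 8 * (2 * Real.pi * Real.exp (-(3 / 2) * L) ^ 2 * x ^ 4) =
            2 * Real.pi * ((x ^ 12 * Real.exp (-(3 / 2) * L)) * Real.exp (-(3 / 2) * L)) := by
            ring
        _ = 2 * Real.pi * Real.exp (-(3 / 2) * L) := by rw [hE, one_mul]
        _ ≤ 2 * Real.pi * 1 := mul_le_mul_of_nonneg_left hE1 (by positivity)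
        _ = _ := by ring
    have h8 : 0 ≤ Real.pi * SS := by positivity
    have e2 : 600 * Real.pi * (SS + 1) = 600 * (Real.pi * SS) + 600 * Real.pi := by ring
    rw [e2]
    linarith
  · -- (7)
    intro u
    have h1 := Wg_out h hT1 ha1 hab hb2 u
    rw [← hLdef, ← hxdef] at h1
    rw [← hLdef, hx4]
    refine h1.trans ?_
    have h2 : Real.sqrt (2 * Real.pi) ≤ 3 := by
      rw [Real.sqrt_le_left (by norm_num)]
      have := Real.pi_lt_d2
      norm_num at this ⊢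
      linarith
    have h3 : L ^ 3 ≤ 3072 * x := by
      have := Real.pow_div_factorial_le_exp (x := L / 8) (by linarith) 3
      rw [← hxe] at this
      have h4 : (Nat.factorial 3 : ℝ) = 6 := by norm_num [Nat.factorial]
      rw [h4] at this
      have h5 : (L / 8) ^ 3 / 6 = L ^ 3 / 3072 := by ring
      rw [h5] at this
      linarith
    have h5 : 4 * Real.pi * (L / 8 * x) ^ 2 * (2 * L + 2 * Real.sqrt (2 * Real.pi)) ≤
        4 * Real.pi * (L / 8 * x) ^ 2 * (3 * L) :=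
      mul_le_mul_of_nonneg_left (by linarith) (by positivity)
    refine h5.trans ?_
    have h6 : 4 * Real.pi * (L / 8 * x) ^ 2 * (3 * L) = 12 / 64 * Real.pi * x ^ 2 * L ^ 3 := by
      ring
    rw [h6]
    have h7 : 12 / 64 * Real.pi * x ^ 2 * L ^ 3 ≤ 12 / 64 * Real.pi * x ^ 2 * (3072 * x) :=
      mul_le_mul_of_nonneg_left h3 (by positivity)
    refine h7.trans ?_
    have h8 : 12 / 64 * Real.pi * x ^ 2 * (3072 * x) = 576 * Real.pi * x ^ 3 := by ring
    rw [h8]
    have h9 : 576 * Real.pi * x ^ 3 ≤ 576 * Real.pi * x ^ 4 :=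
      mul_le_mul_of_nonneg_left (pw 3 4 (by norm_num)) (by positivity)
    refine h9.trans ?_
    refine mul_le_mul_of_nonneg_right ?_ (by positivity)
    have h10 : 0 ≤ Real.pi * SS := by positivity
    have h11 : 600 * Real.pi * (SS + 1) = 600 * (Real.pi * SS) + 600 * Real.pi := by ring
    rw [h11]
    linarith
  · -- (8)
    refine (av_sq h hT1).trans ?_
    rw [hxi, ← hxdef]
    have h1 : 2 * x * x ^ 2 ≤ 2 * T := by
      have := pw 3 8 (by norm_num)
      rw [hx8]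
      nlinarith
    have h2 : T ≤ K ^ 2 * T := by nlinarith
    have h3 : 0 ≤ SS * (K ^ 2 * T) := by positivity
    have h4 : 600 * Real.pi * (SS + 1) * K ^ 2 * T =
        200 * (Real.pi * 3) * (SS * (K ^ 2 * T)) + 200 * (Real.pi * 3) * (K ^ 2 * T) := by ring
    have h5 : T * (15 / 2 * K ^ 2 * SS) = 15 / 2 * (SS * (K ^ 2 * T)) := by ring
    rw [h4, h5]
    have h6 : 0 ≤ K ^ 2 * T := by positivity
    have h7 : 8 * (SS * (K ^ 2 * T)) ≤ 200 * (Real.pi * 3) * (SS * (K ^ 2 * T)) :=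
      mul_le_mul_of_nonneg_right (by linarith) h3
    have h8 : 8 * (K ^ 2 * T) ≤ 200 * (Real.pi * 3) * (K ^ 2 * T) :=
      mul_le_mul_of_nonneg_right (by linarith) h6
    linarith
  · -- (9)
    intro t h1 h2
    exact ibp_in hGd (G_cont h) (dG_cont h) h1 h2
  · -- (10)
    intro t
    refine (ibp_bound hGd (G_cont h) (dG_cont h) hab (G_bound h) t).trans ?_
    rw [← hxdef]
    refine mul_le_mul_of_nonneg_right ?_ hx0.le
    have h10 : 0 ≤ Real.pi * SS := by positivity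
    have h11 : 600 * Real.pi * (SS + 1) = 600 * (Real.pi * SS) + 600 * Real.pi := by ring
    rw [h11]
    linarith
  · -- (11)
    intro t ht
    refine ibp_zero G hab ?_
    rcases ht with ht | ht
    · left; linarith
    · right; linarith

end

end Pool.Agent.U94.MV3.VG
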