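import Pool.Agent.U398.MV.Stm3

/-!
Project MV3, package VG, part A: finite exponential sums, their mean square, and the sum over unit
windows.
-/

set_option autoImplicit false

namespace Pool.Agent.U94.MV3.VG

open MeasureTheory Filter Topology Set Complex Pool.Agent.U398.MV

noncomputable section

/-- finite exponential sums -/
def ES {ι : Type} (Λ : Finset ι) (lam : ι → ℝ) (c : ι → ℂ) (t : ℝ) : ℂ :=
  ∑ i ∈ Λ, c i * cexp (-(I * t * (lam i : ℂ)))

theorem norm_e (t l : ℝ) : ‖cexp (-(I * t * (l : ℂ)))‖ = 1 := by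
  rw [Complex.norm_exp]
  simp

theorem norm_e2 (u y : ℝ) : ‖cexp (I * u * y)‖ = 1 := by
  rw [Complex.norm_exp]
  simp

theorem norm_g (y t : ℝ) : ‖cexp (-((y : ℂ) - t) ^ 2 / 2)‖ = Real.exp (-(y - t) ^ 2 / 2) := by
  have : cexp (-((y : ℂ) - t) ^ 2 / 2) = ((Real.exp (-(y - t) ^ 2 / 2) : ℝ) : ℂ) := by
    push_cast; rfl
  rw [this, Complex.norm_real, Real.norm_of_nonneg (Real.exp_pos _).le]

section
variable {ι : Type} (Λ : Finset ι) (lam : ι → ℝ) (c : ι → ℂ)

theorem ES_norm (t : ℝ) : ‖ES Λ lam c t‖ ≤ ∑ i ∈ Λ, ‖c i‖ := by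
  unfold ES
  refine (norm_sum_le _ _).trans (Finset.sum_le_sum fun i _ => ?_)
  rw [norm_mul, norm_e, mul_one]

theorem ES_deriv (t : ℝ) :
    HasDerivAt (ES Λ lam c) (ES Λ lam (fun i => -(I * (lam i : ℂ)) * c i) t) t := by
  unfold ES
  refine HasDerivAt.fun_sum fun i _ => ?_
  have h1 : HasDerivAt (fun t : ℝ => -(I * (t : ℂ) * (lam i : ℂ))) (-(I * (lam i : ℂ))) t := by
    have h2 : HasDerivAt (fun t : ℝ => (t : ℂ)) 1 t := Complex.ofRealCLM.hasDerivAt
    have h3 := ((h2.const_mul I).mul_const (lam i : ℂ)).fun_neg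
    refine h3.congr_deriv ?_
    rw [mul_one]
  have h4 := (h1.cexp).const_mul (c i)
  refine h4.congr_deriv ?_
  ring

theorem ES_cont : Continuous (ES Λ lam c) := by
  unfold ES
  fun_prop

/-- mean square of an exponential sum with separated frequencies -/
theorem ES_mean {δ : ℝ} (hδ : 0 < δ)
    (hsep : ∀ i ∈ Λ, ∀ j ∈ Λ, i ≠ j → δ ≤ |lam i - lam j|) {A B : ℝ} (hAB : A ≤ B) :
    (∫ t in A..B, ‖ES Λ lam c t‖ ^ 2) ≤
      (B - A) * ∑ i ∈ Λ, ‖c i‖ ^ 2 + 2 / δ * (∑ i ∈ Λ, ‖c i‖) ^ 2 := by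
  classical
  have h1 : ∀ t : ℝ, ((‖ES Λ lam c t‖ ^ 2 : ℝ) : ℂ) =
      ∑ i ∈ Λ, ∑ j ∈ Λ, c i * (starRingEnd ℂ) (c j) * cexp ((-(I * ((lam i - lam j : ℝ) : ℂ))) * t) := by
    intro t
    have h2 : ((‖ES Λ lam c t‖ ^ 2 : ℝ) : ℂ) = ES Λ lam c t * (starRingEnd ℂ) (ES Λ lam c t) := by
      rw [Complex.mul_conj, Complex.normSq_eq_norm_sq]
    rw [h2]
    unfold ES
    rw [map_sum, Finset.sum_mul_sum]
    refine Finset.sum_congr rfl fun i _ => Finset.sum_congr rfl fun j _ => ?_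
    rw [map_mul, ← Complex.exp_conj]
    have h3 : (starRingEnd ℂ) (-(I * (t : ℂ) * (lam j : ℂ))) = I * t * lam j := by
      simp
    rw [h3]
    have h4 : cexp ((-(I * ((lam i - lam j : ℝ) : ℂ))) * t) =
        cexp (-(I * t * (lam i : ℂ))) * cexp (I * t * lam j) := by
      rw [← Complex.exp_add]
      congr 1
      push_cast
      ring
    rw [h4]
    ring
  have h5 : ((∫ t in A..B, ‖ES Λ lam c t‖ ^ 2 : ℝ) : ℂ) =
      ∑ i ∈ Λ, ∑ j ∈ Λ, c i * (starRingEnd ℂ) (c j) *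
        ∫ t in A..B, cexp ((-(I * ((lam i - lam j : ℝ) : ℂ))) * t) := by
    rw [← intervalIntegral.integral_ofReal]
    simp_rw [h1]
    rw [intervalIntegral.integral_finsetSum]
    · refine Finset.sum_congr rfl fun i _ => ?_
      rw [intervalIntegral.integral_finsetSum]
      · refine Finset.sum_congr rfl fun j _ => ?_
        rw [intervalIntegral.integral_const_mul]
      · intro j _
        exact (by fun_prop : Continuous fun t : ℝ => c i * (starRingEnd ℂ) (c j) *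
          cexp ((-(I * ((lam i - lam j : ℝ) : ℂ))) * t)).intervalIntegrable _ _
    · intro i _
      exact (by fun_prop : Continuous fun t : ℝ => ∑ j ∈ Λ, c i * (starRingEnd ℂ) (c j) *
          cexp ((-(I * ((lam i - lam j : ℝ) : ℂ))) * t)).intervalIntegrable _ _
  have h6 : ∀ i ∈ Λ, ∀ j ∈ Λ, ‖∫ t in A..B, cexp ((-(I * ((lam i - lam j : ℝ) : ℂ))) * t)‖ ≤
      if i = j then (B - A) else 2 / δ := by
    intro i hi j hj
    split_ifs with hij
    · subst hij
      simp only [sub_self, Complex.ofReal_zero, mul_zero, neg_zero, zero_mul, Complex.exp_zero]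
      rw [intervalIntegral.integral_const]
      rw [norm_smul, norm_one, mul_one, Real.norm_of_nonneg (by linarith)]
    · have h7 := hsep i hi j hj hij
      have h8 : lam i - lam j ≠ 0 := by
        intro h
        rw [h, abs_zero] at h7
        linarith
      have h9 : (-(I * ((lam i - lam j : ℝ) : ℂ))) ≠ 0 := by
        rw [neg_ne_zero]
        exact mul_ne_zero I_ne_zero (by exact_mod_cast h8)
      rw [integral_exp_mul_complex h9, norm_div]
      have h10 : ‖(-(I * ((lam i - lam j : ℝ) : ℂ)))‖ = |lam i - lam j| := by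
        rw [norm_neg, norm_mul, Complex.norm_I, one_mul, Complex.norm_real, Real.norm_eq_abs]
      have h11 : ∀ x : ℝ, ‖cexp ((-(I * ((lam i - lam j : ℝ) : ℂ))) * x)‖ = 1 := by
        intro x
        rw [Complex.norm_exp]
        simp
      rw [h10]
      refine div_le_div₀ (by norm_num) ?_ hδ h7
      refine (norm_sub_le _ _).trans ?_
      rw [h11, h11]
      norm_num
  have h12 : (∫ t in A..B, ‖ES Λ lam c t‖ ^ 2) ≤
      ∑ i ∈ Λ, ∑ j ∈ Λ, ‖c i‖ * ‖c j‖ * (if i = j then (B - A) else 2 / δ) := by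
    have h13 : (∫ t in A..B, ‖ES Λ lam c t‖ ^ 2) ≤
        ‖((∫ t in A..B, ‖ES Λ lam c t‖ ^ 2 : ℝ) : ℂ)‖ := by
      rw [Complex.norm_real]; exact le_abs_self _
    refine h13.trans ?_
    rw [h5]
    refine (norm_sum_le _ _).trans (Finset.sum_le_sum fun i hi => ?_)
    refine (norm_sum_le _ _).trans (Finset.sum_le_sum fun j hj => ?_)
    rw [norm_mul, norm_mul, RCLike.norm_conj]
    exact mul_le_mul_of_nonneg_left (h6 i hi j hj) (by positivity)
  refine h12.trans ?_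
  have h14 : ∀ i ∈ Λ, ∑ j ∈ Λ, ‖c i‖ * ‖c j‖ * (if i = j then (B - A) else 2 / δ) ≤
      (B - A) * ‖c i‖ ^ 2 + ∑ j ∈ Λ, 2 / δ * (‖c i‖ * ‖c j‖) := by
    intro i hi
    have h15 : ∀ j ∈ Λ, ‖c i‖ * ‖c j‖ * (if i = j then (B - A) else 2 / δ) ≤
        (if i = j then (B - A) * ‖c i‖ ^ 2 else 0) + 2 / δ * (‖c i‖ * ‖c j‖) := by
      intro j _
      split_ifs with hij
      · subst hij
        have : 0 ≤ 2 / δ * (‖c i‖ * ‖c i‖) := by positivity
        nlinarith
      · linarith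
    refine (Finset.sum_le_sum h15).trans ?_
    rw [Finset.sum_add_distrib, Finset.sum_ite_eq, if_pos hi]
  refine (Finset.sum_le_sum h14).trans (le_of_eq ?_)
  rw [Finset.sum_add_distrib, ← Finset.mul_sum]
  congr 1
  rw [sq, Finset.sum_mul_sum, Finset.mul_sum]
  refine Finset.sum_congr rfl fun i _ => ?_
  rw [Finset.mul_sum]

end

/-- `∑ 1 / (1 + m²)` -/
def SS : ℝ := ∑' m : ℤ, 1 / (1 + (m : ℝ) ^ 2)

theorem SS_summable : Summable fun m : ℤ => 1 / (1 + (m : ℝ) ^ 2) := by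
  have h := (Real.summable_one_div_int_pow (p := 2)).2 (by norm_num)
  have h2 : Summable fun m : ℤ => 1 / ((m : ℝ)) ^ 2 + if m = 0 then (1 : ℝ) else 0 := by
    refine h.add ?_
    refine (hasSum_ite_eq (0 : ℤ) (1 : ℝ)).summable
  refine Summable.of_nonneg_of_le (fun m => by positivity) (fun m => ?_) h2
  by_cases hm : m = 0
  · subst hm; simp
  · rw [if_neg hm, add_zero]
    have : (0 : ℝ) < (m : ℝ) ^ 2 := by positivity
    exact one_div_le_one_div_of_le this (by linarith)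

theorem SS_nonneg : 0 ≤ SS := tsum_nonneg fun m => by positivity

/-- sum over the windows of length two around the `u + 2 m` -/
theorem windows {ι : Type} {T K : ℝ} {Λ : Finset ι} {lam : ι → ℝ} {g : ι → ℂ} {G : ℝ → ℝ}
    (h : Trig T K Λ lam g G) (u B : ℝ) (hB : 0 ≤ B) (ω : ι → ℝ)
    (hω : ∀ i ∈ Λ, ∀ m : ℤ, |lam i - (u + 2 * m)| ≤ 1 →
      ω i ≤ B * (1 + |u + 2 * m|) / (1 + (m : ℝ) ^ 2)) :
    ∑ i ∈ Λ, ω i * ‖g i‖ ^ 2 ≤ B * K ^ 2 * SS := by
  classical
  let r : ι → ℤ := fun i => round ((lam i - u) / 2)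
  have hr : ∀ i, |lam i - (u + 2 * (r i : ℝ))| ≤ 1 := by
    intro i
    have h1 := abs_sub_round ((lam i - u) / 2)
    have h2 : lam i - (u + 2 * (r i : ℝ)) = 2 * ((lam i - u) / 2 - (r i : ℝ)) := by ring
    rw [h2, abs_mul, abs_two]
    linarith
  have h1 : ∑ i ∈ Λ, ω i * ‖g i‖ ^ 2 =
      ∑ m ∈ Λ.image r, ∑ i ∈ Λ.filter (fun i => r i = m), ω i * ‖g i‖ ^ 2 :=
    (Finset.sum_fiberwise_of_maps_to (fun i hi => Finset.mem_image_of_mem r hi) _).symm
  rw [h1]
  have h2 : ∀ m ∈ Λ.image r, ∑ i ∈ Λ.filter (fun i => r i = m), ω i * ‖g i‖ ^ 2 ≤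
      B * K ^ 2 * (1 / (1 + (m : ℝ) ^ 2)) := by
    intro m _
    have h3 : ∑ i ∈ Λ.filter (fun i => r i = m), ω i * ‖g i‖ ^ 2 ≤
        ∑ i ∈ Λ.filter (fun i => r i = m),
          (B * (1 + |u + 2 * m|) / (1 + (m : ℝ) ^ 2)) * ‖g i‖ ^ 2 := by
      refine Finset.sum_le_sum fun i hi => ?_
      obtain ⟨hi1, hi2⟩ := Finset.mem_filter.1 hi
      have h4 := hr i
      rw [hi2] at h4
      exact mul_le_mul_of_nonneg_right (hω i hi1 m h4) (by positivity)
    have h5 : ∑ i ∈ Λ.filter (fun i => r i = m), ‖g i‖ ^ 2 ≤ K ^ 2 / (1 + |u + 2 * m|) := by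
      refine le_trans ?_ (h.dens (u + 2 * m))
      rw [Finset.sum_filter]
      refine Finset.sum_le_sum fun i _ => ?_
      by_cases hi2 : r i = m
      · have h4 := hr i
        rw [hi2] at h4
        rw [if_pos hi2, if_pos h4]
      · rw [if_neg hi2]
        split_ifs <;> positivity
    refine h3.trans ?_
    rw [← Finset.mul_sum]
    refine (mul_le_mul_of_nonneg_left h5 (by positivity)).trans (le_of_eq ?_)
    have h6 : (1 + |u + 2 * (m : ℝ)|) ≠ 0 := by positivity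
    field_simp
  refine (Finset.sum_le_sum h2).trans ?_
  rw [← Finset.mul_sum]
  refine mul_le_mul_of_nonneg_left ?_ (by positivity)
  exact SS_summable.sum_le_tsum _ (fun m _ => by positivity)

end

end Pool.Agent.U94.MV3.VG
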