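import Pool.Agent.U94.MV3.VGA

/-!
Project MV3, package VG, part B: the derivative of a trigonometric polynomial and its local
transform.
-/

set_option autoImplicit false

namespace Pool.Agent.U94.MV3.VG

open MeasureTheory Filter Topology Set Complex Pool.Agent.U398.MV

noncomputable section

/-- coefficients of the derivative -/
def dc {ι : Type} (lam : ι → ℝ) (g : ι → ℂ) (i : ι) : ℂ := -(I * (lam i : ℂ)) * g i

/-- coefficients of the full transform -/
def cc {ι : Type} (lam : ι → ℝ) (g : ι → ℂ) (u : ℝ) (i : ι) : ℂ :=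
  dc lam g i * ((Real.sqrt (2 * Real.pi) * Real.exp (-(u - lam i) ^ 2 / 2) : ℝ) : ℂ)

section
variable {ι : Type} {T K : ℝ} {Λ : Finset ι} {lam : ι → ℝ} {g : ι → ℂ} {G : ℝ → ℝ}

theorem G_eq (h : Trig T K Λ lam g G) (t : ℝ) : (G t : ℂ) = ES Λ lam g t := h.rep t

theorem G_fun (h : Trig T K Λ lam g G) : G = fun t => (ES Λ lam g t).re := by
  funext t
  rw [← G_eq h t, Complex.ofReal_re]

theorem G_hasDeriv (h : Trig T K Λ lam g G) (t : ℝ) :
    HasDerivAt G (ES Λ lam (dc lam g) t).re t := by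
  have h1 := ES_deriv Λ lam g t
  have h2 := (Complex.reCLM.hasFDerivAt (x := ES Λ lam g t)).comp_hasDerivAt t h1
  have h3 : (Complex.reCLM ∘ ES Λ lam g) = G := by
    rw [G_fun h]; rfl
  rw [h3] at h2
  exact h2

theorem dG (h : Trig T K Λ lam g G) (t : ℝ) :
    ((deriv G t : ℝ) : ℂ) = ES Λ lam (dc lam g) t := by
  have h1 := G_hasDeriv h t
  have h2 : HasDerivAt (fun t => (G t : ℂ)) ((ES Λ lam (dc lam g) t).re : ℂ) t := h1.ofReal_comp
  have h3 : (fun t => (G t : ℂ)) = ES Λ lam g := funext fun t => G_eq h t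
  rw [h3] at h2
  rw [h1.deriv, h2.unique (ES_deriv Λ lam g t)]
  rfl

theorem dc_norm (i : ι) : ‖dc lam g i‖ = |lam i| * ‖g i‖ := by
  unfold dc
  rw [norm_mul, norm_neg, norm_mul, Complex.norm_I, one_mul, Complex.norm_real, Real.norm_eq_abs]

theorem dc_sum (h : Trig T K Λ lam g G) (hT : 1 ≤ T) :
    ∑ i ∈ Λ, ‖dc lam g i‖ ≤ Real.log T / 8 * T ^ (1 / 8 : ℝ) := by
  have h1 : ∑ i ∈ Λ, ‖dc lam g i‖ ≤ ∑ i ∈ Λ, Real.log T / 8 * ‖g i‖ := by
    refine Finset.sum_le_sum fun i hi => ?_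
    rw [dc_norm]
    exact mul_le_mul_of_nonneg_right (h.small i hi) (norm_nonneg _)
  refine h1.trans ?_
  rw [← Finset.mul_sum]
  exact mul_le_mul_of_nonneg_left h.mass (by have := Real.log_nonneg hT; positivity)

theorem dG_bound (h : Trig T K Λ lam g G) (hT : 1 ≤ T) (t : ℝ) :
    |deriv G t| ≤ Real.log T / 8 * T ^ (1 / 8 : ℝ) := by
  have h1 : |deriv G t| = ‖((deriv G t : ℝ) : ℂ)‖ := by
    rw [Complex.norm_real, Real.norm_eq_abs]
  rw [h1, dG h]
  exact (ES_norm Λ lam _ t).trans (dc_sum h hT)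

theorem G_bound (h : Trig T K Λ lam g G) (t : ℝ) : |G t| ≤ T ^ (1 / 8 : ℝ) := by
  have h1 : |G t| = ‖((G t : ℝ) : ℂ)‖ := by
    rw [Complex.norm_real, Real.norm_eq_abs]
  rw [h1, G_eq h]
  exact (ES_norm Λ lam _ t).trans h.mass

theorem G_cont (h : Trig T K Λ lam g G) : Continuous G := by
  rw [G_fun h]
  exact Complex.continuous_re.comp (ES_cont Λ lam g)

theorem dG_cont (h : Trig T K Λ lam g G) : Continuous (deriv G) := by
  have h1 : deriv G = fun t => (ES Λ lam (dc lam g) t).re := by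
    funext t
    rw [(G_hasDeriv h t).deriv]
  rw [h1]
  exact Complex.continuous_re.comp (ES_cont Λ lam _)

theorem G_contDiff (h : Trig T K Λ lam g G) : ContDiff ℝ 2 G := by
  rw [G_fun h]
  unfold ES
  refine Complex.reCLM.contDiff.comp ?_
  refine ContDiff.sum fun i _ => ?_
  refine contDiff_const.mul ?_
  refine ContDiff.cexp ?_
  refine ContDiff.neg ?_
  exact (contDiff_const.mul Complex.ofRealCLM.contDiff).mul contDiff_const

end

theorem Wg_cont {f : ℝ → ℝ} (hf : Continuous f) (a b : ℝ) :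
    Continuous fun p : ℝ × ℝ => Wg f a b p.1 p.2 := by
  unfold Wg
  refine intervalIntegral.continuous_parametric_intervalIntegral_of_continuous' ?_ a b
  fun_prop

theorem gauss_int {c : ℝ} (hc : 0 < c) (t : ℝ) :
    Integrable fun y : ℝ => Real.exp (-(y - t) ^ 2 / c) := by
  have h1 : Integrable fun y : ℝ => Real.exp (-(1 / c) * y ^ 2) :=
    integrable_exp_neg_mul_sq (by positivity)
  have h2 := h1.comp_sub_right t
  refine h2.congr (Eventually.of_forall fun y => ?_)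
  simp only
  congr 1
  ring

theorem gauss_val {c : ℝ} (_hc : 0 < c) (t : ℝ) :
    ∫ y : ℝ, Real.exp (-(y - t) ^ 2 / c) = Real.sqrt (c * Real.pi) := by
  have h1 : ∀ y : ℝ, Real.exp (-(y - t) ^ 2 / c) =
      (fun x : ℝ => Real.exp (-(1 / c) * x ^ 2)) (y - t) := by
    intro y
    simp only
    congr 1
    ring
  simp_rw [h1]
  rw [integral_sub_right_eq_self (fun x : ℝ => Real.exp (-(1 / c) * x ^ 2)) t, integral_gaussian]
  congr 1
  field_simp

theorem setbound {F : ℝ → ℂ} {M : ℝ} (hM : 0 ≤ M) {t D : ℝ} (hD : 0 ≤ D)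
    (hF : ∀ y, ‖F y‖ ≤ M * Real.exp (-(y - t) ^ 2 / 2)) {S : Set ℝ} (hS : MeasurableSet S)
    (hSD : ∀ y ∈ S, D ≤ |y - t|) :
    ‖∫ y in S, F y‖ ≤ M * (Real.sqrt (4 * Real.pi) * Real.exp (-D ^ 2 / 4)) := by
  have h1 : Integrable fun y : ℝ => M * Real.exp (-D ^ 2 / 4) * Real.exp (-(y - t) ^ 2 / 4) :=
    (gauss_int (by norm_num) t).const_mul _
  have h2 : ‖∫ y in S, F y‖ ≤
      ∫ y in S, M * Real.exp (-D ^ 2 / 4) * Real.exp (-(y - t) ^ 2 / 4) := by
    refine norm_integral_le_of_norm_le h1.integrableOn ?_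
    refine (ae_restrict_mem hS).mono fun y hy => ?_
    refine (hF y).trans ?_
    rw [mul_assoc, ← Real.exp_add]
    refine mul_le_mul_of_nonneg_left (Real.exp_le_exp.2 ?_) hM
    have h3 := hSD y hy
    have h4 : D ^ 2 ≤ (y - t) ^ 2 := by
      rw [← sq_abs (y - t)]
      exact pow_le_pow_left₀ hD h3 2
    linarith
  refine h2.trans ?_
  refine (setIntegral_le_integral h1 (Eventually.of_forall fun y => by positivity)).trans ?_
  rw [integral_const_mul, gauss_val (by norm_num)]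
  apply le_of_eq
  ring

/-- the integrand of `Wg` -/
def Wi (f : ℝ → ℝ) (u t y : ℝ) : ℂ :=
  (f y : ℂ) * (cexp (I * u * y) * cexp (-((y : ℂ) - t) ^ 2 / 2))

theorem Wi_norm (f : ℝ → ℝ) {M : ℝ} (hM : ∀ y, |f y| ≤ M) (u t y : ℝ) :
    ‖Wi f u t y‖ ≤ M * Real.exp (-(y - t) ^ 2 / 2) := by
  unfold Wi
  rw [norm_mul, norm_mul, norm_e2, norm_g, one_mul, Complex.norm_real, Real.norm_eq_abs]
  exact mul_le_mul_of_nonneg_right (hM y) (Real.exp_pos _).le

theorem Wi_cont {f : ℝ → ℝ} (hf : Continuous f) (u t : ℝ) : Continuous (Wi f u t) := by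
  unfold Wi
  fun_prop

theorem Wi_int {f : ℝ → ℝ} (hf : Continuous f) {M : ℝ} (hM : ∀ y, |f y| ≤ M) (u t : ℝ) :
    Integrable (Wi f u t) := by
  refine Integrable.mono' ((gauss_int (c := 2) (by norm_num) t).const_mul M)
    (Wi_cont hf u t).aestronglyMeasurable (Eventually.of_forall fun y => Wi_norm f hM u t y)

theorem Wg_eq (f : ℝ → ℝ) {a b : ℝ} (hab : a ≤ b) (u t : ℝ) :
    Wg f a b u t = ∫ y in Ioc a b, Wi f u t y := by
  unfold Wg Wi
  rw [intervalIntegral.integral_of_le hab]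

theorem Wg_le {f : ℝ → ℝ} {M : ℝ} (hM0 : 0 ≤ M) (hM : ∀ y, |f y| ≤ M)
    {a b D : ℝ} (hab : a ≤ b) (u t : ℝ) (hD : 0 ≤ D) (h : ∀ y ∈ Ioc a b, D ≤ |y - t|) :
    ‖Wg f a b u t‖ ≤ M * (Real.sqrt (4 * Real.pi) * Real.exp (-D ^ 2 / 4)) := by
  rw [Wg_eq f hab]
  exact setbound hM0 hD (Wi_norm f hM u t) measurableSet_Ioc h

theorem full_int (u t l : ℝ) :
    ∫ y : ℝ, cexp (-(I * y * (l : ℂ))) * (cexp (I * u * y) * cexp (-((y : ℂ) - t) ^ 2 / 2)) =
      cexp (I * u * t) * cexp (-(I * t * (l : ℂ))) *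
        ((Real.sqrt (2 * Real.pi) * Real.exp (-(u - l) ^ 2 / 2) : ℝ) : ℂ) := by
  have h1 : ∀ y : ℝ, cexp (-(I * y * (l : ℂ))) * (cexp (I * u * y) *
      cexp (-((y : ℂ) - t) ^ 2 / 2)) =
      (fun x : ℝ => cexp (I * u * t) * cexp (-(I * t * (l : ℂ))) *
        (cexp (I * ((u - l : ℝ) : ℂ) * x) * cexp (-(1 / 2 : ℂ) * (x : ℂ) ^ 2))) (y - t) := by
    intro y
    simp only
    rw [← Complex.exp_add, ← Complex.exp_add, ← Complex.exp_add, ← Complex.exp_add,
      ← Complex.exp_add]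
    congr 1
    push_cast
    ring
  simp_rw [h1]
  rw [integral_sub_right_eq_self (fun x : ℝ => cexp (I * u * t) * cexp (-(I * t * (l : ℂ))) *
        (cexp (I * ((u - l : ℝ) : ℂ) * x) * cexp (-(1 / 2 : ℂ) * (x : ℂ) ^ 2))) t,
    integral_const_mul, fourierIntegral_gaussian (by norm_num)]
  congr 1
  have h2 : ((Real.pi : ℂ) / (1 / 2 : ℂ)) ^ (1 / 2 : ℂ) = ((Real.sqrt (2 * Real.pi) : ℝ) : ℂ) := by
    have h3 : ((Real.pi : ℂ) / (1 / 2 : ℂ)) = ((2 * Real.pi : ℝ) : ℂ) := by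
      push_cast; ring
    rw [h3, Real.sqrt_eq_rpow, Complex.ofReal_cpow (by positivity)]
    norm_num
  rw [h2]
  push_cast
  congr 1
  congr 1
  ring

section
variable {ι : Type} {T K : ℝ} {Λ : Finset ι} {lam : ι → ℝ} {g : ι → ℂ} {G : ℝ → ℝ}

theorem Wi_full (h : Trig T K Λ lam g G) (u t : ℝ) :
    ∫ y : ℝ, Wi (deriv G) u t y = cexp (I * u * t) * ES Λ lam (cc lam g u) t := by
  unfold Wi
  have h1 : ∀ y : ℝ, ((deriv G y : ℝ) : ℂ) * (cexp (I * u * y) * cexp (-((y : ℂ) - t) ^ 2 / 2)) =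
      ∑ i ∈ Λ, dc lam g i * (cexp (-(I * y * (lam i : ℂ))) *
        (cexp (I * u * y) * cexp (-((y : ℂ) - t) ^ 2 / 2))) := by
    intro y
    rw [dG h y]
    unfold ES
    rw [Finset.sum_mul]
    refine Finset.sum_congr rfl fun i _ => ?_
    ring
  simp_rw [h1]
  rw [integral_finsetSum]
  · unfold ES
    rw [Finset.mul_sum]
    refine Finset.sum_congr rfl fun i _ => ?_
    rw [integral_const_mul, full_int]
    unfold cc
    ring
  · intro i _
    refine Integrable.const_mul ?_ _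
    refine Integrable.mono' (gauss_int (c := 2) (by norm_num) t) ?_ (Eventually.of_forall ?_)
    · exact (by fun_prop : Continuous fun y : ℝ => cexp (-(I * y * (lam i : ℂ))) *
        (cexp (I * u * y) * cexp (-((y : ℂ) - t) ^ 2 / 2))).aestronglyMeasurable
    · intro y
      rw [norm_mul, norm_mul, norm_e, norm_e2, norm_g, one_mul, one_mul]

theorem Wg_split (h : Trig T K Λ lam g G) (hT : 1 ≤ T) {a b : ℝ} (hab : a ≤ b) (u t : ℝ) :
    Wg (deriv G) a b u t = cexp (I * u * t) * ES Λ lam (cc lam g u) t -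
      ∫ y in (Ioc a b)ᶜ, Wi (deriv G) u t y := by
  rw [Wg_eq _ hab, ← Wi_full h u t,
    ← integral_add_compl measurableSet_Ioc (Wi_int (dG_cont h) (dG_bound h hT) u t)]
  ring

theorem Wg_near (h : Trig T K Λ lam g G) (hT : 1 ≤ T) {a b : ℝ} (hab : a ≤ b) (u t : ℝ)
    {D : ℝ} (hD : 0 ≤ D) (h1 : a + D ≤ t) (h2 : t + D ≤ b) :
    ‖Wg (deriv G) a b u t‖ ≤ ‖ES Λ lam (cc lam g u) t‖ +
      Real.log T / 8 * T ^ (1 / 8 : ℝ) * (Real.sqrt (4 * Real.pi) * Real.exp (-D ^ 2 / 4)) := by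
  rw [Wg_split h hT hab]
  refine (norm_sub_le _ _).trans (add_le_add ?_ ?_)
  · rw [norm_mul, norm_e2, one_mul]
  · have h3 := Real.log_nonneg hT
    refine setbound (by positivity) hD (Wi_norm _ (dG_bound h hT) u t)
      measurableSet_Ioc.compl ?_
    intro y hy
    rw [mem_compl_iff, mem_Ioc, not_and_or, not_lt, not_le] at hy
    rcases hy with hy | hy
    · rw [abs_of_nonpos (by linarith)]; linarith
    · rw [abs_of_nonneg (by linarith)]; linarith

end

end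

end Pool.Agent.U94.MV3.VG
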