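import Pool.Agent.U94.MV3.VGB

/-!
Project MV3, package VG, part C: the mean squares of the local transform.
-/

set_option autoImplicit false

namespace Pool.Agent.U94.MV3.VG

open MeasureTheory Filter Topology Set Complex Pool.Agent.U398.MV

noncomputable section

theorem sq_eps (M D : ℝ) :
    (M * (Real.sqrt (4 * Real.pi) * Real.exp (-D ^ 2 / 4))) ^ 2 =
      4 * Real.pi * M ^ 2 * Real.exp (-D ^ 2 / 2) := by
  have h1 : Real.exp (-D ^ 2 / 4) ^ 2 = Real.exp (-D ^ 2 / 2) := by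
    rw [← Real.exp_nat_mul]
    congr 1
    push_cast
    ring
  rw [mul_pow, mul_pow, Real.sq_sqrt (by positivity), h1]
  ring

theorem exp_win (w : ℝ) : (1 + w ^ 2) ^ 2 * Real.exp (-w ^ 2) ≤ 2 := by
  have h1 := Real.quadratic_le_exp_of_nonneg (sq_nonneg w)
  have h2 : (1 + w ^ 2) ^ 2 ≤ 2 * Real.exp (w ^ 2) := by nlinarith
  have h3 : Real.exp (w ^ 2) * Real.exp (-w ^ 2) = 1 := by
    rw [← Real.exp_add]; simp
  calc (1 + w ^ 2) ^ 2 * Real.exp (-w ^ 2) ≤ 2 * Real.exp (w ^ 2) * Real.exp (-w ^ 2) :=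
        mul_le_mul_of_nonneg_right h2 (Real.exp_pos _).le
    _ = 2 := by rw [mul_assoc, h3, mul_one]

theorem wtG (u l : ℝ) (m : ℤ) (h : |l - (u + 2 * m)| ≤ 1) :
    l ^ 2 * Real.exp (-(u - l) ^ 2) ≤
      9 / 2 * (1 + |u|) * (1 + |u + 2 * m|) / (1 + (m : ℝ) ^ 2) := by
  have hm : (0 : ℝ) < 1 + (m : ℝ) ^ 2 := by positivity
  rw [le_div_iff₀ hm]
  have hw : ∃ w : ℝ, w = l - u := ⟨_, rfl⟩
  obtain ⟨w, hw⟩ := hw
  have h1 : (-(u - l) ^ 2) = -w ^ 2 := by rw [hw]; ring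
  rw [h1]
  have h2 : |l| ≤ 1 + |u + 2 * m| := by
    have := abs_sub_abs_le_abs_sub l (u + 2 * m)
    linarith
  have h3 : |l| ≤ (1 + |u|) * (1 + |w|) := by
    have : l = u + w := by rw [hw]; ring
    have h4 : |l| ≤ |u| + |w| := by rw [this]; exact abs_add_le _ _
    nlinarith [abs_nonneg u, abs_nonneg w]
  have h5 : |(2 : ℝ) * m| ≤ 1 + |w| := by
    have h6 : (2 : ℝ) * m = w - (l - (u + 2 * m)) := by rw [hw]; ring
    rw [h6]
    have := abs_sub w (l - (u + 2 * m))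
    linarith
  have h7 : (m : ℝ) ^ 2 ≤ (1 + |w|) ^ 2 / 4 := by
    have h8 : ((2 : ℝ) * m) ^ 2 ≤ (1 + |w|) ^ 2 := by
      rw [← sq_abs ((2 : ℝ) * m)]
      exact pow_le_pow_left₀ (abs_nonneg _) h5 2
    nlinarith
  have h9 : |w| ^ 2 = w ^ 2 := sq_abs w
  have h10 : 1 + (m : ℝ) ^ 2 ≤ 3 / 2 * (1 + w ^ 2) := by nlinarith [sq_nonneg (1 - |w|)]
  have h11 : 1 + |w| ≤ 3 / 2 * (1 + w ^ 2) := by nlinarith [sq_nonneg (1 - |w|)]
  have h12 : l ^ 2 ≤ (1 + |u + 2 * m|) * ((1 + |u|) * (1 + |w|)) := by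
    have : l ^ 2 = |l| * |l| := by rw [← sq_abs]; ring
    rw [this]
    exact mul_le_mul h2 h3 (abs_nonneg _) (by positivity)
  have h13 : (1 + |w|) * (1 + (m : ℝ) ^ 2) * Real.exp (-w ^ 2) ≤ 9 / 2 := by
    have h14 : (1 + |w|) * (1 + (m : ℝ) ^ 2) ≤ 9 / 4 * (1 + w ^ 2) ^ 2 := by
      calc (1 + |w|) * (1 + (m : ℝ) ^ 2) ≤ (3 / 2 * (1 + w ^ 2)) * (3 / 2 * (1 + w ^ 2)) :=
            mul_le_mul h11 h10 (by positivity) (by positivity)
        _ = _ := by ring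
    calc (1 + |w|) * (1 + (m : ℝ) ^ 2) * Real.exp (-w ^ 2) ≤
          9 / 4 * (1 + w ^ 2) ^ 2 * Real.exp (-w ^ 2) :=
          mul_le_mul_of_nonneg_right h14 (Real.exp_pos _).le
      _ = 9 / 4 * ((1 + w ^ 2) ^ 2 * Real.exp (-w ^ 2)) := by ring
      _ ≤ 9 / 4 * 2 := by
          have := exp_win w
          linarith
      _ = 9 / 2 := by norm_num
  calc l ^ 2 * Real.exp (-w ^ 2) * (1 + (m : ℝ) ^ 2) ≤
        ((1 + |u + 2 * m|) * ((1 + |u|) * (1 + |w|))) * Real.exp (-w ^ 2) * (1 + (m : ℝ) ^ 2) := by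
        refine mul_le_mul_of_nonneg_right ?_ hm.le
        exact mul_le_mul_of_nonneg_right h12 (Real.exp_pos _).le
    _ = (1 + |u|) * (1 + |u + 2 * m|) * ((1 + |w|) * (1 + (m : ℝ) ^ 2) * Real.exp (-w ^ 2)) := by
        ring
    _ ≤ (1 + |u|) * (1 + |u + 2 * m|) * (9 / 2) := mul_le_mul_of_nonneg_left h13 (by positivity)
    _ = _ := by ring

theorem wtS (l : ℝ) (m : ℤ) (h : |l - (0 + 2 * m)| ≤ 1) :
    5 / (1 + l ^ 2) ≤ 15 / 2 * (1 + |0 + 2 * (m : ℝ)|) / (1 + (m : ℝ) ^ 2) := by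
  have hm : (0 : ℝ) < 1 + (m : ℝ) ^ 2 := by positivity
  have hl : (0 : ℝ) < 1 + l ^ 2 := by positivity
  rw [div_le_div_iff₀ hl hm]
  have h5 : |(2 : ℝ) * m| ≤ 1 + |l| := by
    have h6 : (2 : ℝ) * m = l - (l - (0 + 2 * m)) := by ring
    rw [h6]
    have := abs_sub l (l - (0 + 2 * m))
    linarith
  have h7 : (m : ℝ) ^ 2 ≤ (1 + |l|) ^ 2 / 4 := by
    have h8 : ((2 : ℝ) * m) ^ 2 ≤ (1 + |l|) ^ 2 := by
      rw [← sq_abs ((2 : ℝ) * m)]
      exact pow_le_pow_left₀ (abs_nonneg _) h5 2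
    nlinarith
  have h9 : |l| ^ 2 = l ^ 2 := sq_abs l
  have h10 : 1 + (m : ℝ) ^ 2 ≤ 3 / 2 * (1 + l ^ 2) := by nlinarith [sq_nonneg (1 - |l|)]
  have h11 : 0 ≤ |0 + 2 * (m : ℝ)| := abs_nonneg _
  have h12 : 0 ≤ |0 + 2 * (m : ℝ)| * (1 + l ^ 2) := by positivity
  nlinarith

section
variable {ι : Type} {T K : ℝ} {Λ : Finset ι} {lam : ι → ℝ} {g : ι → ℂ} {G : ℝ → ℝ}

theorem Wg_phi (h : Trig T K Λ lam g G) (hT : 1 ≤ T) {a b : ℝ} (hab : a ≤ b) (u t : ℝ) :
    ‖Wg (deriv G) a b u t‖ ^ 2 ≤ 4 * Real.pi * (Real.log T / 8 * T ^ (1 / 8 : ℝ)) ^ 2 *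
      ((Icc a b).indicator (fun _ => (1 : ℝ)) t + Real.exp (-(t - a) ^ 2 / 2) +
        Real.exp (-(t - b) ^ 2 / 2)) := by
  have hL := Real.log_nonneg hT
  have hM : 0 ≤ Real.log T / 8 * T ^ (1 / 8 : ℝ) := by positivity
  have key : ∀ D : ℝ, 0 ≤ D → (∀ y ∈ Ioc a b, D ≤ |y - t|) →
      Real.exp (-D ^ 2 / 2) ≤ (Icc a b).indicator (fun _ => (1 : ℝ)) t +
        Real.exp (-(t - a) ^ 2 / 2) + Real.exp (-(t - b) ^ 2 / 2) →
      ‖Wg (deriv G) a b u t‖ ^ 2 ≤ 4 * Real.pi * (Real.log T / 8 * T ^ (1 / 8 : ℝ)) ^ 2 *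
      ((Icc a b).indicator (fun _ => (1 : ℝ)) t + Real.exp (-(t - a) ^ 2 / 2) +
        Real.exp (-(t - b) ^ 2 / 2)) := by
    intro D hD h1 h2
    have h3 := Wg_le hM (dG_bound h hT) hab u t hD h1
    have h4 := pow_le_pow_left₀ (norm_nonneg _) h3 2
    rw [sq_eps] at h4
    refine h4.trans ?_
    exact mul_le_mul_of_nonneg_left h2 (by positivity)
  have e1 := Real.exp_pos (-(t - a) ^ 2 / 2)
  have e2 := Real.exp_pos (-(t - b) ^ 2 / 2)
  have e3 : 0 ≤ (Icc a b).indicator (fun _ => (1 : ℝ)) t :=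
    indicator_nonneg (fun _ _ => zero_le_one) t
  rcases lt_or_ge t a with hta | hta
  · refine key (a - t) (by linarith) ?_ ?_
    · intro y hy
      have := hy.1
      rw [abs_of_nonneg (by linarith)]
      linarith
    · have : -(a - t) ^ 2 / 2 = -(t - a) ^ 2 / 2 := by ring
      rw [this]
      linarith
  rcases lt_or_ge b t with htb | htb
  · refine key (t - b) (by linarith) ?_ ?_
    · intro y hy
      have := hy.2
      rw [abs_of_nonpos (by linarith)]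
      linarith
    · linarith
  · refine key 0 le_rfl (fun y _ => abs_nonneg _) ?_
    have : (Icc a b).indicator (fun _ => (1 : ℝ)) t = 1 :=
      indicator_of_mem (show t ∈ Icc a b from ⟨hta, htb⟩) _
    rw [this]
    simp only [ne_eq, OfNat.ofNat_ne_zero, not_false_eq_true, zero_pow, neg_zero, zero_div,
      Real.exp_zero]
    linarith

theorem ind_int (A B : ℝ) : Integrable ((Icc A B).indicator (fun _ => (1 : ℝ))) := by
  rw [integrable_indicator_iff measurableSet_Icc]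
  exact integrableOn_const (by simp)

theorem ind_val {A B : ℝ} (h : A ≤ B) : ∫ t, (Icc A B).indicator (fun _ => (1 : ℝ)) t = B - A := by
  rw [integral_indicator measurableSet_Icc, setIntegral_const]
  simp [h]

theorem Wg_sq_cont (h : Trig T K Λ lam g G) (a b u : ℝ) :
    Continuous fun t : ℝ => ‖Wg (deriv G) a b u t‖ ^ 2 := by
  have h0 : Continuous fun t : ℝ => ((u, t) : ℝ × ℝ) := by fun_prop
  have h1 := ((Wg_cont (dG_cont h) a b).comp h0).norm.pow 2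
  simp only [Function.comp_def] at h1
  exact h1

theorem Wg_sq_int (h : Trig T K Λ lam g G) (hT : 1 ≤ T) {a b : ℝ} (hab : a ≤ b) (u : ℝ) :
    Integrable fun t : ℝ => ‖Wg (deriv G) a b u t‖ ^ 2 := by
  have g1 : Integrable fun t : ℝ => Real.exp (-(t - a) ^ 2 / 2) := gauss_int (by norm_num) a
  have g2 : Integrable fun t : ℝ => Real.exp (-(t - b) ^ 2 / 2) := gauss_int (by norm_num) b
  have i1 : Integrable fun t : ℝ => (Icc a b).indicator (fun _ => (1 : ℝ)) t +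
      Real.exp (-(t - a) ^ 2 / 2) := (ind_int a b).add g1
  have i2 : Integrable fun t : ℝ => (Icc a b).indicator (fun _ => (1 : ℝ)) t +
      Real.exp (-(t - a) ^ 2 / 2) + Real.exp (-(t - b) ^ 2 / 2) := i1.add g2
  refine Integrable.mono' (i2.const_mul
      (4 * Real.pi * (Real.log T / 8 * T ^ (1 / 8 : ℝ)) ^ 2))
    (Wg_sq_cont h a b u).aestronglyMeasurable (Eventually.of_forall fun t => ?_)
  rw [Real.norm_of_nonneg (by positivity)]
  exact Wg_phi h hT hab u t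

theorem Wg_out (h : Trig T K Λ lam g G) (hT : 1 ≤ T) {a b : ℝ} (ha : T ≤ a) (hab : a ≤ b)
    (hb : b ≤ 2 * T) (u : ℝ) :
    (∫ t in (Icc (T + Real.log T) (2 * T - Real.log T))ᶜ, ‖Wg (deriv G) a b u t‖ ^ 2) ≤
      4 * Real.pi * (Real.log T / 8 * T ^ (1 / 8 : ℝ)) ^ 2 * (2 * Real.log T +
        2 * Real.sqrt (2 * Real.pi)) := by
  have hL := Real.log_nonneg hT
  let φ : ℝ → ℝ := fun t => (Icc T (T + Real.log T)).indicator (fun _ => (1 : ℝ)) t +
    (Icc (2 * T - Real.log T) (2 * T)).indicator (fun _ => (1 : ℝ)) t +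
    Real.exp (-(t - a) ^ 2 / 2) + Real.exp (-(t - b) ^ 2 / 2)
  have g1 : Integrable fun t : ℝ => Real.exp (-(t - a) ^ 2 / 2) := gauss_int (by norm_num) a
  have g2 : Integrable fun t : ℝ => Real.exp (-(t - b) ^ 2 / 2) := gauss_int (by norm_num) b
  have i1 : Integrable fun t : ℝ => (Icc T (T + Real.log T)).indicator (fun _ => (1 : ℝ)) t +
      (Icc (2 * T - Real.log T) (2 * T)).indicator (fun _ => (1 : ℝ)) t :=
    (ind_int _ _).add (ind_int _ _)
  have i2 : Integrable fun t : ℝ => (Icc T (T + Real.log T)).indicator (fun _ => (1 : ℝ)) t +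
      (Icc (2 * T - Real.log T) (2 * T)).indicator (fun _ => (1 : ℝ)) t +
      Real.exp (-(t - a) ^ 2 / 2) := i1.add g1
  have hφi : Integrable φ := i2.add g2
  have hφv : ∫ t, φ t = 2 * Real.log T + 2 * Real.sqrt (2 * Real.pi) := by
    simp only [φ]
    rw [integral_add i2 g2, integral_add i1 g1,
      integral_add (ind_int _ _) (ind_int _ _), ind_val (by linarith), ind_val (by linarith),
      gauss_val (by norm_num), gauss_val (by norm_num)]
    ring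
  have h0 : ∀ t, 0 ≤ φ t := by
    intro t
    have e1 : 0 ≤ (Icc T (T + Real.log T)).indicator (fun _ => (1 : ℝ)) t :=
      indicator_nonneg (fun _ _ => zero_le_one) t
    have e2 : 0 ≤ (Icc (2 * T - Real.log T) (2 * T)).indicator (fun _ => (1 : ℝ)) t :=
      indicator_nonneg (fun _ _ => zero_le_one) t
    simp only [φ]
    positivity
  have h1 : (∫ t in (Icc (T + Real.log T) (2 * T - Real.log T))ᶜ,
      ‖Wg (deriv G) a b u t‖ ^ 2) ≤ ∫ t in (Icc (T + Real.log T) (2 * T - Real.log T))ᶜ,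
        4 * Real.pi * (Real.log T / 8 * T ^ (1 / 8 : ℝ)) ^ 2 * φ t := by
    refine setIntegral_mono_on (Wg_sq_int h hT hab u).integrableOn
      (hφi.const_mul _).integrableOn measurableSet_Icc.compl ?_
    intro t ht
    refine (Wg_phi h hT hab u t).trans (mul_le_mul_of_nonneg_left ?_ (by positivity))
    simp only [φ]
    have e1 : 0 ≤ (Icc T (T + Real.log T)).indicator (fun _ => (1 : ℝ)) t :=
      indicator_nonneg (fun _ _ => zero_le_one) t
    have e2 : 0 ≤ (Icc (2 * T - Real.log T) (2 * T)).indicator (fun _ => (1 : ℝ)) t :=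
      indicator_nonneg (fun _ _ => zero_le_one) t
    have e3 : (Icc a b).indicator (fun _ => (1 : ℝ)) t ≤
        (Icc T (T + Real.log T)).indicator (fun _ => (1 : ℝ)) t +
        (Icc (2 * T - Real.log T) (2 * T)).indicator (fun _ => (1 : ℝ)) t := by
      by_cases hab2 : t ∈ Icc a b
      · rw [indicator_of_mem hab2]
        rw [mem_compl_iff, mem_Icc, not_and_or, not_le, not_le] at ht
        rcases ht with ht | ht
        · rw [indicator_of_mem (show t ∈ Icc T (T + Real.log T) from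
            ⟨ha.trans hab2.1, ht.le⟩)]
          linarith
        · rw [indicator_of_mem (show t ∈ Icc (2 * T - Real.log T) (2 * T) from
            ⟨ht.le, hab2.2.trans hb⟩)]
          linarith
      · rw [indicator_of_notMem hab2]
        linarith
    linarith
  refine h1.trans ?_
  refine (setIntegral_le_integral (hφi.const_mul _)
    (Eventually.of_forall fun t => mul_nonneg (by positivity) (h0 t))).trans ?_
  rw [integral_const_mul, hφv]

theorem cc_sq (u : ℝ) (i : ι) : ‖cc lam g u i‖ ^ 2 =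
    2 * Real.pi * (lam i ^ 2 * Real.exp (-(u - lam i) ^ 2) * ‖g i‖ ^ 2) := by
  unfold cc
  rw [norm_mul, dc_norm, Complex.norm_real, Real.norm_of_nonneg (by positivity)]
  have h1 : Real.exp (-(u - lam i) ^ 2 / 2) ^ 2 = Real.exp (-(u - lam i) ^ 2) := by
    rw [← Real.exp_nat_mul]
    congr 1
    push_cast
    ring
  rw [mul_pow, mul_pow, mul_pow, Real.sq_sqrt (by positivity), h1, sq_abs]
  ring

theorem cc_le (u : ℝ) (i : ι) {E : ℝ} (hE : Real.exp (-(u - lam i) ^ 2 / 2) ≤ E) :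
    ‖cc lam g u i‖ ≤ Real.sqrt (2 * Real.pi) * E * ‖dc lam g i‖ := by
  unfold cc
  rw [norm_mul, Complex.norm_real, Real.norm_of_nonneg (by positivity), mul_comm]
  refine mul_le_mul_of_nonneg_right ?_ (norm_nonneg _)
  exact mul_le_mul_of_nonneg_left hE (Real.sqrt_nonneg _)

theorem cc_diag (h : Trig T K Λ lam g G) (u : ℝ) :
    ∑ i ∈ Λ, ‖cc lam g u i‖ ^ 2 ≤ 9 * Real.pi * (1 + |u|) * K ^ 2 * SS := by
  have h1 := windows h u (9 / 2 * (1 + |u|)) (by positivity)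
    (fun i => lam i ^ 2 * Real.exp (-(u - lam i) ^ 2)) (fun i _ m hm => wtG u (lam i) m hm)
  simp_rw [cc_sq]
  rw [← Finset.mul_sum]
  have := mul_le_mul_of_nonneg_left h1 (show 0 ≤ 2 * Real.pi by positivity)
  refine this.trans (le_of_eq ?_)
  ring

theorem cc_sum (h : Trig T K Λ lam g G) (hT : 1 ≤ T) (u : ℝ) {E : ℝ} (hE0 : 0 ≤ E)
    (hE : ∀ i ∈ Λ, Real.exp (-(u - lam i) ^ 2 / 2) ≤ E) :
    (∑ i ∈ Λ, ‖cc lam g u i‖) ^ 2 ≤
      2 * Real.pi * E ^ 2 * (Real.log T / 8 * T ^ (1 / 8 : ℝ)) ^ 2 := by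
  have h1 : ∑ i ∈ Λ, ‖cc lam g u i‖ ≤
      Real.sqrt (2 * Real.pi) * E * (Real.log T / 8 * T ^ (1 / 8 : ℝ)) := by
    refine (Finset.sum_le_sum fun i hi => cc_le u i (hE i hi)).trans ?_
    rw [← Finset.mul_sum]
    exact mul_le_mul_of_nonneg_left (dc_sum h hT) (by positivity)
  refine (pow_le_pow_left₀ (Finset.sum_nonneg fun i _ => norm_nonneg _) h1 2).trans
    (le_of_eq ?_)
  rw [mul_pow, mul_pow, Real.sq_sqrt (by positivity)]

theorem Wg_J (h : Trig T K Λ lam g G) (hT : 1 ≤ T) {a b : ℝ} (hab : a ≤ b) (u : ℝ) {D : ℝ}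
    (hD : 0 ≤ D) {A B : ℝ} (hAB : A ≤ B) (h1 : a + D ≤ A) (h2 : B + D ≤ b) :
    (∫ t in A..B, ‖Wg (deriv G) a b u t‖ ^ 2) ≤
      2 * ((B - A) * ∑ i ∈ Λ, ‖cc lam g u i‖ ^ 2 +
        2 / T ^ (-(1 / 8) : ℝ) * (∑ i ∈ Λ, ‖cc lam g u i‖) ^ 2) +
      2 * (B - A) * (4 * Real.pi * (Real.log T / 8 * T ^ (1 / 8 : ℝ)) ^ 2 *
        Real.exp (-D ^ 2 / 2)) := by
  have h3 := ES_mean Λ lam (cc lam g u) (Real.rpow_pos_of_pos (by linarith) _) h.sep hAB
  have c1 : Continuous fun t => ‖ES Λ lam (cc lam g u) t‖ ^ 2 :=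
    (ES_cont Λ lam (cc lam g u)).norm.pow 2
  have h4 : (∫ t in A..B, ‖Wg (deriv G) a b u t‖ ^ 2) ≤
      ∫ t in A..B, (2 * ‖ES Λ lam (cc lam g u) t‖ ^ 2 +
        2 * (4 * Real.pi * (Real.log T / 8 * T ^ (1 / 8 : ℝ)) ^ 2 * Real.exp (-D ^ 2 / 2))) := by
    refine intervalIntegral.integral_mono_on hAB
      ((Wg_sq_cont h a b u).intervalIntegrable _ _) ?_ ?_
    · exact (by fun_prop : Continuous fun t => 2 * ‖ES Λ lam (cc lam g u) t‖ ^ 2 +
        2 * (4 * Real.pi * (Real.log T / 8 * T ^ (1 / 8 : ℝ)) ^ 2 *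
          Real.exp (-D ^ 2 / 2))).intervalIntegrable _ _
    · intro t ht
      have h5 := Wg_near h hT hab u t hD (by linarith [ht.1]) (by linarith [ht.2])
      have h6 := pow_le_pow_left₀ (norm_nonneg _) h5 2
      refine h6.trans ?_
      rw [← sq_eps]
      nlinarith [sq_nonneg (‖ES Λ lam (cc lam g u) t‖ - Real.log T / 8 * T ^ (1 / 8 : ℝ) *
        (Real.sqrt (4 * Real.pi) * Real.exp (-D ^ 2 / 4)))]
  refine h4.trans ?_
  rw [intervalIntegral.integral_add ((c1.const_mul 2).intervalIntegrable _ _)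
    (intervalIntegrable_const), intervalIntegral.integral_const_mul,
    intervalIntegral.integral_const, smul_eq_mul]
  have := mul_le_mul_of_nonneg_left h3 (show (0 : ℝ) ≤ 2 by norm_num)
  refine (add_le_add this le_rfl).trans (le_of_eq ?_)
  ring

end

end

end Pool.Agent.U94.MV3.VG
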